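import Mathlib
import Pool.Agent.Q145.SZ.Stm3

/-!
# Project SZ, job FEW: few primes with `χ(p) = 1`
-/

set_option autoImplicit false

namespace Pool.Agent.Q177.SZ

open Finset Filter Complex Metric
open Pool.Agent.Q145.SZ Pool.Agent.W66 Pool.Agent.W66L

namespace FEW

/-- The terms of the sum. -/
noncomputable def tm {r : ℕ} (χ : DirichletCharacter ℂ r) (σ : ℝ) (n : ℕ) : ℝ :=
  (1 + (χ (n : ZMod r)).re) * (ArithmeticFunction.vonMangoldt n / (n : ℝ) ^ σ)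

theorem tm_nonneg {r : ℕ} (χ : DirichletCharacter ℂ r) (σ : ℝ) (n : ℕ) : 0 ≤ tm χ σ n := by
  have h1 := (abs_le.1 ((Complex.abs_re_le_norm (χ (n : ZMod r))).trans (χ.norm_le_one _))).1
  refine mul_nonneg (by linarith) (div_nonneg ArithmeticFunction.vonMangoldt_nonneg ?_)
  positivity

theorem tm_sum {r : ℕ} (χ : DirichletCharacter ℂ r) {σ : ℝ} (hσ : 1 < σ) :
    Summable (tm χ σ) ∧ ∑' n, tm χ σ n =
      (LSeries (fun n => (ArithmeticFunction.vonMangoldt n : ℂ)) (⟨σ, 0⟩ : ℂ)).re +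
      (LSeries ((fun n : ℕ => (χ n : ℂ)) * (fun n : ℕ => (ArithmeticFunction.vonMangoldt n : ℂ)))
        (⟨σ, 0⟩ : ℂ)).re := by
  have hs0 : LSeriesSummable (fun n => (ArithmeticFunction.vonMangoldt n : ℂ)) (⟨σ, 0⟩ : ℂ) :=
    ArithmeticFunction.LSeriesSummable_vonMangoldt (by simpa using hσ)
  have hs1 : LSeriesSummable ((fun n : ℕ => (χ n : ℂ)) *
      (fun n : ℕ => (ArithmeticFunction.vonMangoldt n : ℂ))) (⟨σ, 0⟩ : ℂ) :=
    DirichletCharacter.LSeriesSummable_mul χ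
      (ArithmeticFunction.LSeriesSummable_vonMangoldt (by simpa using hσ))
  have h0 := (Complex.reCLM.summable hs0)
  have h1 := (Complex.reCLM.summable hs1)
  simp only [Complex.reCLM_apply] at h0 h1
  have hterm : tm χ σ = fun n =>
      (LSeries.term (fun n => (ArithmeticFunction.vonMangoldt n : ℂ)) (⟨σ, 0⟩ : ℂ) n).re +
      (LSeries.term ((fun n : ℕ => (χ n : ℂ)) *
        (fun n : ℕ => (ArithmeticFunction.vonMangoldt n : ℂ))) (⟨σ, 0⟩ : ℂ) n).re := by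
    funext n
    unfold tm
    rcases eq_or_ne n 0 with rfl | hn
    · simp
    have hnr : (0 : ℝ) < n := by exact_mod_cast Nat.pos_of_ne_zero hn
    have e1 : (n : ℂ) ^ (⟨σ, 0⟩ : ℂ) = (((n : ℝ) ^ σ : ℝ) : ℂ) := by
      rw [Complex.ofReal_cpow hnr.le]
      have : (⟨σ, 0⟩ : ℂ) = (σ : ℂ) := by apply Complex.ext <;> simp
      rw [this]
      simp
    rw [LSeries.term_of_ne_zero hn, LSeries.term_of_ne_zero hn, e1, Pi.mul_apply, mul_div_assoc,
      ← Complex.ofReal_div, Complex.ofReal_re, Complex.re_mul_ofReal]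
    ring
  refine ⟨?_, ?_⟩
  · rw [hterm]
    exact h0.add h1
  · rw [hterm, Summable.tsum_add h0 h1]
    unfold LSeries
    rw [Complex.re_tsum hs0, Complex.re_tsum hs1]

theorem log3_le : Real.log 3 ≤ 2 := by
  have h1 := Real.log_le_sub_one_of_pos (show (0 : ℝ) < 3 by norm_num)
  linarith

theorem log3_ge : 1 ≤ Real.log 3 := by
  rw [Real.le_log_iff_exp_le (by norm_num)]
  exact (Real.exp_one_lt_d9.trans (by norm_num)).le

/-- The upper bound. -/
theorem upper : ∃ K : ℝ, 0 < K ∧ ∀ (r : ℕ) [NeZero r] (χ : DirichletCharacter ℂ r), χ ≠ 1 →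
    ∀ β Y C : ℝ, 1 ≤ Y → 2 ≤ C → χ.LFunction β = 0 → β < 1 → C * ((1 - β) * Y) ≤ 1 →
      C * (Real.log r + 1) ≤ Y →
      ∑' n, tm χ (1 + 1 / Y) n ≤ K * (Y / C) + K := by
  obtain ⟨K, hK, hDL⟩ := DL_re
  obtain ⟨K0, hK0, hD0⟩ := D_re
  refine ⟨1 + 2 * K + 2 * K0, by positivity, fun r _ χ hχ β Y C hY hC hβ hβ1 hCY hCr => ?_⟩
  have hY0 : 0 < Y := by linarith
  have hC0 : 0 < C := by linarith
  obtain ⟨σ, hσ⟩ : ∃ σ, σ = 1 + 1 / Y := ⟨_, rfl⟩
  have hiY : 0 < 1 / Y := by positivity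
  have hiY1 : 1 / Y ≤ 1 := by
    rw [div_le_one hY0]
    exact hY
  have hσ1 : 1 < σ := by linarith
  have hσ2 : σ ≤ 2 := by linarith
  have hbY : 0 ≤ (1 - β) * Y := mul_nonneg (by linarith) hY0.le
  have hbY1 : (1 - β) * Y ≤ 1 / C := by
    rw [le_div_iff₀ hC0]
    linarith
  have hb2 : 1 - β ≤ 1 / 2 := by
    have h1 : 1 - β ≤ (1 - β) * Y := le_mul_of_one_le_right (by linarith) hY
    have h2 : 1 / C ≤ 1 / 2 := one_div_le_one_div_of_le (by norm_num) hC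
    linarith
  have d0 := (hD0 0 σ hσ1 hσ2).1
  have hball : (β : ℂ) ∈ closedBall (⟨2, 0⟩ : ℂ) (3 / 2) := by
    rw [mem_closedBall, dist_eq_norm]
    have e : (β : ℂ) - ⟨2, 0⟩ = ((β - 2 : ℝ) : ℂ) := by
      apply Complex.ext <;> simp
    rw [e, Complex.norm_real, Real.norm_eq_abs, abs_le]
    constructor <;> linarith
  have d1 := (hDL r χ hχ 0 σ hσ1 hσ2).2 _ hball hβ
  change _ ≤ (DD _).re at d0
  obtain ⟨-, hsum⟩ := tm_sum χ hσ1
  rw [← hσ, hsum, LSeries_eq_DD (by simpa using hσ1), LSeries_eq_DL χ hχ (by simpa using hσ1),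
    sub_re, neg_re]
  have e1 : (1 / ((⟨σ, 0⟩ : ℂ) - 1)).re = Y := by
    have e : (⟨σ, 0⟩ : ℂ) - 1 = ((σ - 1 : ℝ) : ℂ) := by
      apply Complex.ext <;> simp
    rw [e, ← Complex.ofReal_one, ← Complex.ofReal_div, Complex.ofReal_re, hσ]
    field_simp
    ring
  have e2 : (1 / ((⟨σ, 0⟩ : ℂ) - β)).re = 1 / (σ - β) := by
    have e : (⟨σ, 0⟩ : ℂ) - β = ((σ - β : ℝ) : ℂ) := by
      apply Complex.ext <;> simp
    rw [e, ← Complex.ofReal_one, ← Complex.ofReal_div, Complex.ofReal_re]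
  rw [e2] at d1
  rw [e1]
  -- the main terms
  have e3 : 1 / (σ - β) = Y / (1 + (1 - β) * Y) := by
    have h1 : 0 < σ - β := by linarith
    have h2 : 0 < 1 + (1 - β) * Y := by linarith
    have h3 : Y * (1 / Y) = 1 := mul_one_div_cancel hY0.ne'
    rw [div_eq_div_iff h1.ne' h2.ne', hσ]
    linear_combination (-1) * h3
  have e4 : Y - Y / (1 + (1 - β) * Y) ≤ Y / C := by
    have h2 : 0 < 1 + (1 - β) * Y := by linarith
    have h3 : Y - Y / (1 + (1 - β) * Y) = Y * ((1 - β) * Y) / (1 + (1 - β) * Y) := by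
      rw [eq_div_iff h2.ne', sub_mul, div_mul_cancel₀ _ h2.ne']
      ring
    rw [h3]
    calc Y * ((1 - β) * Y) / (1 + (1 - β) * Y) ≤ Y * ((1 - β) * Y) :=
          div_le_self (mul_nonneg hY0.le hbY) (by linarith)
      _ ≤ Y * (1 / C) := mul_le_mul_of_nonneg_left hbY1 hY0.le
      _ = Y / C := by ring
  have e5 : ell 0 ≤ 2 := by
    unfold ell
    rw [abs_zero, zero_add]
    exact log3_le
  have e6 : lq r 0 ≤ 2 * (Y / C) := by
    unfold lq
    have h1 : Real.log r + 1 ≤ Y / C := by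
      rw [le_div_iff₀ hC0]
      linarith
    have h2 := Real.log_natCast_nonneg r
    linarith
  rw [e3] at d1
  have h5 : K0 * ell 0 ≤ K0 * 2 := mul_le_mul_of_nonneg_left e5 hK0.le
  have h6 : K * lq r 0 ≤ K * (2 * (Y / C)) := mul_le_mul_of_nonneg_left e6 hK.le
  have h7 : 0 < Y / C := by positivity
  have h8 : 0 < K0 * (Y / C) := by positivity
  have d0' : -(K0 * ell 0) ≤ (DD (⟨σ, 0⟩ : ℂ)).re := by
    rw [← neg_mul]
    exact d0
  nlinarith

open Classical in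
/-- The primes of a block. -/
noncomputable def bl {r : ℕ} (χ : DirichletCharacter ℂ r) (X : ℕ) : Finset ℕ :=
  (Ioc X (3 * X)).filter fun p : ℕ => p.Prime ∧ χ (p : ZMod r) = 1

/-- The lower bound for one block. -/
theorem lower {r : ℕ} (χ : DirichletCharacter ℂ r) {ε Y : ℝ} (hY : 2 ≤ Y) {X : ℕ}
    (hX1 : 1 < X) (hXY : Real.log X ≤ Y) (hc : ε * X / Real.log X < ((bl χ X).card : ℝ)) :
    2 * ε / 3 * Real.exp (-2) ≤ ∑ p ∈ bl χ X, tm χ (1 + 1 / Y) p := by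
  classical
  have hY0 : 0 < Y := by linarith
  have hX0 : (0 : ℝ) < X := by exact_mod_cast (by omega : 0 < X)
  have hX1' : (1 : ℝ) < X := by exact_mod_cast hX1
  have hl : 0 < Real.log X := Real.log_pos hX1'
  have h1 : ∀ p ∈ bl χ X, 2 * Real.log X / (3 * X) * Real.exp (-2) ≤ tm χ (1 + 1 / Y) p := by
    intro p hp
    unfold bl at hp
    rw [mem_filter, mem_Ioc] at hp
    obtain ⟨⟨hp1, hp2⟩, hp3, hp4⟩ := hp
    have hp0 : (0 : ℝ) < p := by exact_mod_cast hp3.pos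
    have hpX : (X : ℝ) ≤ p := by exact_mod_cast hp1.le
    have hp3X : (p : ℝ) ≤ 3 * X := by exact_mod_cast hp2
    unfold tm
    rw [hp4, Complex.one_re, ArithmeticFunction.vonMangoldt_apply_prime hp3]
    have h2 : (p : ℝ) ^ (1 + 1 / Y) ≤ 3 * X * Real.exp 2 := by
      calc (p : ℝ) ^ (1 + 1 / Y) ≤ (3 * X : ℝ) ^ (1 + 1 / Y) :=
            Real.rpow_le_rpow hp0.le hp3X (by positivity)
        _ = 3 * X * (3 * X : ℝ) ^ (1 / Y) := by
            rw [Real.rpow_add (by positivity), Real.rpow_one]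
        _ ≤ 3 * X * Real.exp 2 := by
            refine mul_le_mul_of_nonneg_left ?_ (by positivity)
            rw [Real.rpow_def_of_pos (by positivity)]
            apply Real.exp_le_exp.2
            rw [Real.log_mul (by norm_num) hX0.ne', mul_one_div, div_le_iff₀ hY0]
            have := log3_le
            linarith
    have h3 : Real.log X ≤ Real.log p := Real.log_le_log hX0 hpX
    have hpp : 0 < (p : ℝ) ^ (1 + 1 / Y) := Real.rpow_pos_of_pos hp0 _
    calc 2 * Real.log X / (3 * X) * Real.exp (-2) = 2 * (Real.log X / (3 * X * Real.exp 2)) := by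
          rw [Real.exp_neg]
          field_simp
      _ ≤ 2 * (Real.log p / (p : ℝ) ^ (1 + 1 / Y)) := by
          refine mul_le_mul_of_nonneg_left ?_ (by norm_num)
          exact div_le_div₀ (hl.le.trans h3) h3 hpp h2
      _ = (1 + 1) * (Real.log p / (p : ℝ) ^ (1 + 1 / Y)) := by norm_num
  have h2 := Finset.card_nsmul_le_sum (bl χ X) (tm χ (1 + 1 / Y)) _ h1
  rw [nsmul_eq_mul] at h2
  refine le_trans ?_ h2
  calc 2 * ε / 3 * Real.exp (-2) = (ε * X / Real.log X) *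
        (2 * Real.log X / (3 * X) * Real.exp (-2)) := by
        field_simp
    _ ≤ ((bl χ X).card : ℝ) * (2 * Real.log X / (3 * X) * Real.exp (-2)) :=
        mul_le_mul_of_nonneg_right hc.le (by positivity)

end FEW

open FEW

/-- **Job FEW.** -/
theorem t_FEW : S_FEW := by
  classical
  intro ε hε
  obtain ⟨K, hK, hup⟩ := upper
  obtain ⟨κ, hκ⟩ : ∃ κ, κ = 2 * ε / 3 * Real.exp (-2) := ⟨_, rfl⟩
  have hκ0 : 0 < κ := by
    rw [hκ]
    positivity
  have hC0 : 0 < 16 * K / κ + 2 := by positivity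
  have hY00 : 0 < 16 * K / κ + 12 := by positivity
  refine ⟨16 * K / κ + 2, 16 * K / κ + 12, hC0, fun r _ χ _ hχ β Y hY hβ hβ1 hCY hCr => ?_⟩
  have hKκ : 0 < 16 * K / κ := by positivity
  have hY12 : 12 ≤ Y := by linarith
  have hY0 : 0 < Y := by linarith
  by_contra hcon
  push Not at hcon
  have hcon' : ∀ X : ℕ, Y / 2 ≤ Real.log X → Real.log X ≤ Y →
      ε * X / Real.log X < ((bl χ X).card : ℝ) := fun X h1 h2 => hcon X h1 h2
  have hT := hup r χ hχ β Y (16 * K / κ + 2) (by linarith) (by linarith) hβ hβ1 hCY hCr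
  have hσ1 : 1 < 1 + 1 / Y := by
    have : 0 < 1 / Y := by positivity
    linarith
  obtain ⟨hsm, -⟩ := tm_sum χ hσ1
  have hl1 := log3_ge
  have hl2 := log3_le
  have hl0 : 0 < Real.log 3 := by linarith
  have hl2' : Real.log 3 ≤ 1.5 := by
    rw [Real.log_le_iff_le_exp (by norm_num)]
    have h1 : Real.exp 1.5 = Real.exp 0.5 * Real.exp 0.5 * Real.exp 0.5 := by
      rw [← Real.exp_add, ← Real.exp_add]
      norm_num
    have h2 := Real.add_one_le_exp (0.5 : ℝ)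
    rw [h1]
    have h3 : (1.5 : ℝ) * 1.5 ≤ Real.exp 0.5 * Real.exp 0.5 :=
      mul_le_mul (by linarith) (by linarith) (by norm_num) (Real.exp_pos _).le
    have h4 : (1.5 : ℝ) * 1.5 * 1.5 ≤ Real.exp 0.5 * Real.exp 0.5 * Real.exp 0.5 :=
      mul_le_mul h3 (by linarith) (by norm_num) (by positivity)
    linarith
  -- the exponents
  obtain ⟨J, hJ⟩ : ∃ J, J = Finset.Icc ⌈Y / 2 / Real.log 3⌉₊ ⌊Y / Real.log 3⌋₊ := ⟨_, rfl⟩
  have hJm : ∀ j ∈ J, Y / 2 ≤ Real.log ((3 ^ j : ℕ) : ℝ) ∧ Real.log ((3 ^ j : ℕ) : ℝ) ≤ Y := by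
    intro j hj
    rw [hJ, Finset.mem_Icc] at hj
    have h1 : Real.log ((3 ^ j : ℕ) : ℝ) = j * Real.log 3 := by
      rw [Nat.cast_pow, Real.log_pow]
      norm_num
    rw [h1]
    constructor
    · rw [← div_le_iff₀ hl0]
      exact (Nat.le_ceil _).trans (by exact_mod_cast hj.1)
    · rw [← le_div_iff₀ hl0]
      exact (by exact_mod_cast hj.2 : (j : ℝ) ≤ (⌊Y / Real.log 3⌋₊ : ℝ)).trans
        (Nat.floor_le (by positivity))
  have hJc : Y / 8 ≤ (J.card : ℝ) := by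
    rw [hJ, Nat.card_Icc]
    have h1 := Nat.lt_floor_add_one (Y / Real.log 3)
    have h2 := Nat.ceil_lt_add_one (show 0 ≤ Y / 2 / Real.log 3 by positivity)
    have h3 : (⌊Y / Real.log 3⌋₊ : ℝ) + 1 - ⌈Y / 2 / Real.log 3⌉₊ ≤
        ((⌊Y / Real.log 3⌋₊ + 1 - ⌈Y / 2 / Real.log 3⌉₊ : ℕ) : ℝ) := by
      have h4 : ⌊Y / Real.log 3⌋₊ + 1 ≤
          (⌊Y / Real.log 3⌋₊ + 1 - ⌈Y / 2 / Real.log 3⌉₊) + ⌈Y / 2 / Real.log 3⌉₊ := by omega
      have h5 : ((⌊Y / Real.log 3⌋₊ + 1 : ℕ) : ℝ) ≤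
          (((⌊Y / Real.log 3⌋₊ + 1 - ⌈Y / 2 / Real.log 3⌉₊) + ⌈Y / 2 / Real.log 3⌉₊ : ℕ) : ℝ) := by
        exact_mod_cast h4
      rw [Nat.cast_add, Nat.cast_add _ ⌈Y / 2 / Real.log 3⌉₊, Nat.cast_one] at h5
      linarith
    refine le_trans ?_ h3
    have h6 : Y / 2 / Real.log 3 = Y / Real.log 3 - Y / 2 / Real.log 3 := by ring
    have h7 : Y / 3 ≤ Y / 2 / Real.log 3 := by
      rw [le_div_iff₀ hl0]
      nlinarith
    linarith
  -- disjoint blocks
  have hdis : ∀ i ∈ J, ∀ j ∈ J, i ≠ j → Disjoint (bl χ (3 ^ i)) (bl χ (3 ^ j)) := by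
    have key : ∀ i j : ℕ, i < j → Disjoint (bl χ (3 ^ i)) (bl χ (3 ^ j)) := by
      intro i j hij
      rw [Finset.disjoint_left]
      intro p hp hp'
      unfold bl at hp hp'
      rw [mem_filter, mem_Ioc] at hp hp'
      have h1 := hp.1.2
      have h2 := hp'.1.1
      have h3 : 3 * 3 ^ i = 3 ^ (i + 1) := by ring
      have h4 : 3 ^ (i + 1) ≤ 3 ^ j := Nat.pow_le_pow_right (by norm_num) hij
      omega
    intro i _ j _ hij
    rcases lt_or_gt_of_ne hij with h | h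
    · exact key i j h
    · exact (key j i h).symm
  have hsum : ∑ j ∈ J, ∑ p ∈ bl χ (3 ^ j), tm χ (1 + 1 / Y) p ≤ ∑' n, tm χ (1 + 1 / Y) n := by
    rw [← Finset.sum_biUnion (fun i hi j hj hij => hdis i hi j hj hij)]
    exact Summable.sum_le_tsum _ (fun n _ => tm_nonneg χ _ n) hsm
  have hlow : ∀ j ∈ J, κ ≤ ∑ p ∈ bl χ (3 ^ j), tm χ (1 + 1 / Y) p := by
    intro j hj
    obtain ⟨h1, h2⟩ := hJm j hj
    rw [hκ]
    refine lower χ (by linarith) ?_ h2 (hcon' _ h1 h2)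
    by_contra hle
    have h3 : (((3 ^ j : ℕ)) : ℝ) ≤ 1 := by exact_mod_cast (not_lt.1 hle)
    have h4 := Real.log_nonpos (by positivity) h3
    linarith
  have h1 := Finset.card_nsmul_le_sum J (fun j => ∑ p ∈ bl χ (3 ^ j), tm χ (1 + 1 / Y) p) κ hlow
  rw [nsmul_eq_mul] at h1
  have h2 : Y / 8 * κ ≤ (J.card : ℝ) * κ := mul_le_mul_of_nonneg_right hJc hκ0.le
  have h3 : K * (Y / (16 * K / κ + 2)) < Y * κ / 16 := by
    have h4 : K * (Y / (16 * K / κ + 2)) = Y * (K / (16 * K / κ + 2)) := by ring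
    have h5 : K / (16 * K / κ + 2) < κ / 16 := by
      rw [div_lt_iff₀ hC0]
      have h6 : κ / 16 * (16 * K / κ + 2) = K + κ / 8 := by
        field_simp
        ring
      rw [h6]
      linarith
    rw [h4]
    calc Y * (K / (16 * K / κ + 2)) < Y * (κ / 16) := mul_lt_mul_of_pos_left h5 hY0
      _ = Y * κ / 16 := by ring
  have h4 : K < Y * κ / 16 := by
    have h5 : 16 * K / κ < Y := by linarith
    rw [div_lt_iff₀ hκ0] at h5
    linarith
  linarith

end Pool.Agent.Q177.SZ
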