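import Mathlib
import Pool.Agent.Q145.SZ.Stm3
import Pool.Agent.H307R2.Sg6

/-!
# Project SZ, job SIEG: Siegel's theorem for zeros
-/

set_option autoImplicit false

namespace Pool.Agent.Q177.SZ

open Finset Filter Complex Metric
open Pool.Agent.Q145.SZ

/-- The level of a nontrivial character is at least three. -/
theorem three_le {f : ℕ} [NeZero f] {χ : DirichletCharacter ℂ f} (hχ : χ ≠ 1) : 3 ≤ f := by
  by_contra hlt
  have hf : f = 1 ∨ f = 2 := by
    have := NeZero.ne f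
    omega
  have hs : Subsingleton (ZMod f)ˣ := by
    rw [← Fintype.card_le_one_iff_subsingleton, ZMod.card_units_eq_totient]
    rcases hf with rfl | rfl <;> simp
  exact hχ (MulChar.ext fun a => by
    rw [Subsingleton.elim a 1]
    simp)

theorem one_lt_log {f : ℕ} (hf : 3 ≤ f) : 1 < Real.log f := by
  have h3 : (3 : ℝ) ≤ f := by exact_mod_cast hf
  rw [Real.lt_log_iff_exp_lt (by linarith)]
  exact (Real.exp_one_lt_d9.trans (by norm_num)).trans_le h3

theorem rpow_small {f n : ℕ} (hf : 3 ≤ f) (hn : 1 ≤ n) (hnf : n ≤ f) {x : ℝ}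
    (hx : 1 - 1 / (2 * Real.log f) ≤ x) : (n : ℝ) ^ (1 - x) ≤ 3 := by
  have hl := one_lt_log hf
  have hn1 : (1 : ℝ) ≤ n := by exact_mod_cast hn
  have hnf' : (n : ℝ) ≤ f := by exact_mod_cast hnf
  have hf0 : (0 : ℝ) < f := by linarith
  calc (n : ℝ) ^ (1 - x) ≤ (n : ℝ) ^ (1 / (2 * Real.log f)) :=
        Real.rpow_le_rpow_of_exponent_le hn1 (by linarith)
    _ ≤ (f : ℝ) ^ (1 / (2 * Real.log f)) :=
        Real.rpow_le_rpow (by linarith) hnf' (by positivity)
    _ = Real.exp (1 / 2) := by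
        rw [Real.rpow_def_of_pos hf0]
        congr 1
        field_simp
    _ ≤ Real.exp 1 := Real.exp_le_exp.2 (by norm_num)
    _ ≤ 3 := (Real.exp_one_lt_d9.trans (by norm_num)).le

/-- The size of the function near one. -/
theorem L_bound {f : ℕ} [NeZero f] {χ : DirichletCharacter ℂ f} (hχ : χ ≠ 1) {z : ℂ}
    (hz : 1 - 1 / (2 * Real.log f) ≤ z.re) (hz2 : ‖z‖ ≤ 2) :
    ‖χ.LFunction z‖ ≤ 18 * Real.log f := by
  have hf := three_le hχ
  have hl := one_lt_log hf
  have hf1 : 1 ≤ f := by omega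
  have hf0 : (0 : ℝ) < f := by exact_mod_cast hf1
  have hre : 1 / 2 ≤ z.re := by
    have : 1 / (2 * Real.log f) ≤ 1 / 2 := by
      apply one_div_le_one_div_of_le <;> linarith
    linarith
  have hre0 : 0 < z.re := by linarith
  rw [Pool.Agent.H307R2.LFunction_eq hχ hf1 hre0]
  have h1 : ‖∑ n ∈ Finset.Icc 1 f, χ (n : ZMod f) * (n : ℂ) ^ (-z)‖ ≤ 3 * (1 + Real.log f) := by
    refine (norm_sum_le _ _).trans ?_
    have h2 : ∀ n ∈ Finset.Icc 1 f, ‖χ (n : ZMod f) * (n : ℂ) ^ (-z)‖ ≤ 3 * (n : ℝ)⁻¹ := by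
      intro n hn
      rw [Finset.mem_Icc] at hn
      have hn0 : (0 : ℝ) < n := by exact_mod_cast hn.1
      rw [norm_mul, Complex.norm_natCast_cpow_of_pos hn.1]
      have h3 : (n : ℝ) ^ (-z).re = (n : ℝ)⁻¹ * (n : ℝ) ^ (1 - z.re) := by
        rw [← Real.rpow_neg_one, ← Real.rpow_add hn0]
        congr 1
        rw [Complex.neg_re]
        ring
      rw [h3]
      have h4 := rpow_small hf hn.1 hn.2 hz
      have h5 : ‖χ (n : ZMod f)‖ ≤ 1 := χ.norm_le_one _
      have h6 : 0 ≤ (n : ℝ)⁻¹ * (n : ℝ) ^ (1 - z.re) := by positivity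
      calc ‖χ (n : ZMod f)‖ * ((n : ℝ)⁻¹ * (n : ℝ) ^ (1 - z.re)) ≤
            1 * ((n : ℝ)⁻¹ * (n : ℝ) ^ (1 - z.re)) := mul_le_mul_of_nonneg_right h5 h6
        _ ≤ 1 * ((n : ℝ)⁻¹ * 3) := by
            rw [one_mul, one_mul]
            exact mul_le_mul_of_nonneg_left h4 (by positivity)
        _ = 3 * (n : ℝ)⁻¹ := by ring
    refine (Finset.sum_le_sum h2).trans ?_
    rw [← Finset.mul_sum]
    refine mul_le_mul_of_nonneg_left ?_ (by norm_num)
    have h3 := harmonic_le_one_add_log f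
    have h4 : ((harmonic f : ℚ) : ℝ) = ∑ n ∈ Finset.Icc 1 f, (n : ℝ)⁻¹ := by
      rw [harmonic_eq_sum_Icc]
      push_cast
      rfl
    rw [← h4]
    exact h3
  have h2 : ‖z * Pool.Agent.H307R2.TM f (Pool.Agent.H307R2.Ech χ f) z‖ ≤ 12 := by
    rw [norm_mul]
    have h3 := Pool.Agent.H307R2.TM_norm_le hf1 (Pool.Agent.H307R2.Ech_norm_le hχ f) hre0
    have h4 : (f : ℝ) * ((f : ℝ) ^ (-z.re) / z.re) = (f : ℝ) ^ (1 - z.re) / z.re := by
      have h5 : (f : ℝ) ^ (1 - z.re) = f * (f : ℝ) ^ (-z.re) := by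
        rw [sub_eq_add_neg, Real.rpow_add hf0, Real.rpow_one]
      rw [h5]
      ring
    rw [h4] at h3
    have h5 : (f : ℝ) ^ (1 - z.re) / z.re ≤ 6 := by
      rw [div_le_iff₀ hre0]
      have := rpow_small hf hf1 le_rfl hz
      linarith
    calc ‖z‖ * ‖Pool.Agent.H307R2.TM f (Pool.Agent.H307R2.Ech χ f) z‖ ≤ 2 * 6 :=
          mul_le_mul hz2 (h3.trans h5) (norm_nonneg _) (by norm_num)
      _ = 12 := by norm_num
  refine (norm_add_le _ _).trans ?_
  linarith

/-- The derivative near one. -/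
theorem L_deriv {f : ℕ} [NeZero f] {χ : DirichletCharacter ℂ f} (hχ : χ ≠ 1) {w : ℂ}
    (hw : w ∈ closedBall (1 : ℂ) (1 / (4 * Real.log f))) :
    ‖deriv χ.LFunction w‖ ≤ 72 * Real.log f ^ 2 := by
  have hf := three_le hχ
  have hl := one_lt_log hf
  have hδ0 : 0 < 1 / (4 * Real.log f) := by positivity
  have hδ1 : 1 / (4 * Real.log f) ≤ 1 / 4 := by
    apply one_div_le_one_div_of_le <;> linarith
  rw [mem_closedBall, dist_eq_norm] at hw
  have h1 := Complex.norm_deriv_le_of_forall_mem_sphere_norm_le (f := χ.LFunction) (c := w)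
    (C := 18 * Real.log f) hδ0
    ((DirichletCharacter.differentiable_LFunction hχ).diffContOnCl) (by
      intro z hz
      rw [mem_sphere, dist_eq_norm] at hz
      apply L_bound hχ
      · have e1 := (abs_le.1 ((Complex.abs_re_le_norm (w - 1)).trans hw)).1
        have e2 := (abs_le.1 ((Complex.abs_re_le_norm (z - w)).trans hz.le)).1
        rw [Complex.sub_re] at e1 e2
        rw [Complex.one_re] at e1
        have e3 : 1 / (2 * Real.log f) = 2 * (1 / (4 * Real.log f)) := by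
          field_simp
          norm_num
        rw [e3]
        linarith
      · calc ‖z‖ = ‖(z - w) + (w - 1) + 1‖ := by
              congr 1
              ring
          _ ≤ ‖z - w‖ + ‖w - 1‖ + ‖(1 : ℂ)‖ := norm_add₃_le
          _ ≤ 2 := by
              rw [norm_one, hz]
              linarith)
  refine h1.trans (le_of_eq ?_)
  field_simp
  norm_num

/-- **Job SIEG.** -/
theorem t_SIEG : S_SIEG := by
  intro ε hε
  obtain ⟨c, hc, hS⟩ := Pool.Agent.H307R2.siegel (ε / 2) (by positivity)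
  refine ⟨min (ε / 4) (c * ε ^ 2 / 1152), by positivity, fun f _ χ hprim hreal hχ β hβ => ?_⟩
  have hf := three_le hχ
  have hl := one_lt_log hf
  have hf1 : (1 : ℝ) ≤ f := by exact_mod_cast (by omega : 1 ≤ f)
  have hf0 : (0 : ℝ) < f := by linarith
  have hβ1 : β < 1 := by
    by_contra hcon
    refine DirichletCharacter.LFunction_ne_zero_of_one_le_re χ (Or.inl hχ) (s := (β : ℂ)) ?_ hβ
    simpa using hcon
  have hpos : 0 < (f : ℝ) ^ (-ε) := Real.rpow_pos_of_pos hf0 _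
  have hinv : (f : ℝ) ^ ε * (f : ℝ) ^ (-ε) = 1 := by
    rw [← Real.rpow_add hf0, add_neg_cancel, Real.rpow_zero]
  by_cases hcase : β ≤ 1 - 1 / (4 * Real.log f)
  · have h1 : Real.log f ≤ (f : ℝ) ^ ε / ε := Real.log_le_rpow_div hf0.le hε
    have h2 : min (ε / 4) (c * ε ^ 2 / 1152) * (f : ℝ) ^ (-ε) ≤ 1 / (4 * Real.log f) := by
      rw [le_div_iff₀ (by positivity)]
      have h3 : Real.log f * ε ≤ (f : ℝ) ^ ε := by rwa [le_div_iff₀ hε] at h1
      calc min (ε / 4) (c * ε ^ 2 / 1152) * (f : ℝ) ^ (-ε) * (4 * Real.log f) ≤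
            (ε / 4) * (f : ℝ) ^ (-ε) * (4 * Real.log f) := by
            refine mul_le_mul_of_nonneg_right ?_ (by positivity)
            exact mul_le_mul_of_nonneg_right (min_le_left _ _) hpos.le
        _ = (Real.log f * ε) * (f : ℝ) ^ (-ε) := by ring
        _ ≤ (f : ℝ) ^ ε * (f : ℝ) ^ (-ε) := mul_le_mul_of_nonneg_right h3 hpos.le
        _ = 1 := hinv
    linarith
  · push Not at hcase
    have hδ0 : 0 < 1 / (4 * Real.log f) := by positivity
    have h1 : (1 : ℂ) ∈ closedBall (1 : ℂ) (1 / (4 * Real.log f)) := mem_closedBall_self hδ0.le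
    have h2 : (β : ℂ) ∈ closedBall (1 : ℂ) (1 / (4 * Real.log f)) := by
      rw [mem_closedBall, dist_eq_norm, ← Complex.ofReal_one, ← Complex.ofReal_sub,
        Complex.norm_real, Real.norm_eq_abs, abs_le]
      constructor <;> linarith
    have h3 := Convex.norm_image_sub_le_of_norm_deriv_le (f := χ.LFunction)
      (fun z _ => (DirichletCharacter.differentiable_LFunction hχ) z)
      (fun z hz => L_deriv hχ hz) (convex_closedBall (1 : ℂ) (1 / (4 * Real.log f))) h2 h1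
    rw [hβ, sub_zero] at h3
    have h4 : ‖(1 : ℂ) - β‖ = 1 - β := by
      rw [← Complex.ofReal_one, ← Complex.ofReal_sub, Complex.norm_real, Real.norm_eq_abs,
        abs_of_nonneg (by linarith)]
    rw [h4] at h3
    have h5 := (hS f χ hprim hreal hχ).trans h3
    -- the logarithm
    have h6 : Real.log f ≤ (f : ℝ) ^ (ε / 4) / (ε / 4) :=
      Real.log_le_rpow_div hf0.le (by positivity)
    have h7 : Real.log f ^ 2 * ε ^ 2 ≤ 16 * (f : ℝ) ^ (ε / 2) := by
      have h8 : Real.log f * ε ≤ 4 * (f : ℝ) ^ (ε / 4) := by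
        rw [le_div_iff₀ (by positivity)] at h6
        linarith
      have h9 : (f : ℝ) ^ (ε / 2) = (f : ℝ) ^ (ε / 4) * (f : ℝ) ^ (ε / 4) := by
        rw [← Real.rpow_add hf0]
        congr 1
        ring
      rw [h9]
      have h10 : 0 ≤ Real.log f * ε := by positivity
      nlinarith [mul_le_mul h8 h8 h10 (by positivity)]
    have h8 : c * (f : ℝ) ^ (-(ε / 2)) * ε ^ 2 ≤ 1152 * (f : ℝ) ^ (ε / 2) * (1 - β) := by
      have hb : 0 ≤ 1 - β := by linarith
      calc c * (f : ℝ) ^ (-(ε / 2)) * ε ^ 2 ≤ (72 * Real.log f ^ 2 * (1 - β)) * ε ^ 2 :=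
            mul_le_mul_of_nonneg_right h5 (by positivity)
        _ = 72 * (1 - β) * (Real.log f ^ 2 * ε ^ 2) := by ring
        _ ≤ 72 * (1 - β) * (16 * (f : ℝ) ^ (ε / 2)) :=
            mul_le_mul_of_nonneg_left h7 (by positivity)
        _ = _ := by ring
    have h9 : (f : ℝ) ^ (ε / 2) * (f : ℝ) ^ (-(ε / 2)) = 1 := by
      rw [← Real.rpow_add hf0, add_neg_cancel, Real.rpow_zero]
    have h10 : (f : ℝ) ^ (-(ε / 2)) * (f : ℝ) ^ (-(ε / 2)) = (f : ℝ) ^ (-ε) := by
      rw [← Real.rpow_add hf0]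
      congr 1
      ring
    have hq : 0 < (f : ℝ) ^ (-(ε / 2)) := Real.rpow_pos_of_pos hf0 _
    have h11 : c * ε ^ 2 / 1152 * (f : ℝ) ^ (-ε) ≤ 1 - β := by
      have h12 := mul_le_mul_of_nonneg_right h8 hq.le
      have h13 : 1152 * (f : ℝ) ^ (ε / 2) * (1 - β) * (f : ℝ) ^ (-(ε / 2)) = 1152 * (1 - β) := by
        linear_combination (1152 * (1 - β)) * h9
      have h14 : c * (f : ℝ) ^ (-(ε / 2)) * ε ^ 2 * (f : ℝ) ^ (-(ε / 2)) =
          c * ε ^ 2 * (f : ℝ) ^ (-ε) := by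
        rw [← h10]
        ring
      rw [h13, h14] at h12
      linarith
    have h12 : min (ε / 4) (c * ε ^ 2 / 1152) * (f : ℝ) ^ (-ε) ≤
        c * ε ^ 2 / 1152 * (f : ℝ) ^ (-ε) :=
      mul_le_mul_of_nonneg_right (min_le_right _ _) hpos.le
    linarith

end Pool.Agent.Q177.SZ
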